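import Pool.Agent.Gab7c_h87.CY0.A0
import Pool.Agent.Gab7c_h87.CY0.A1
import Pool.Agent.Gab7c_h87.CY0.A2
import Pool.Agent.Gab7c_h87.CY0.A3
import Pool.Agent.Gab7c_h87.CY0.A4
import Pool.Agent.Gab7c_h87.CY0.A5
import Pool.Agent.Gab7c_h87.CY0.T0
import Pool.Agent.Gab7c_h87.CY0.T1
import Pool.Agent.Gab7c_h87.CY0.T2
import Pool.Agent.Gab7c_h87.CY0.T3
import Pool.Agent.Gab7c_h87.CY0.T4
import Pool.Agent.Gab7c_h87.CY0.T5
import Pool.Agent.Gab7c_h87.CY0.T6
import Pool.Agent.Gab7c_h87.CY0.T7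
import Pool.Agent.Gab7c_h87.CY0.T8
import Pool.Agent.Gab7c_h87.CY0.T9
import Pool.Agent.Gab7c_h87.CY0.T10
import Pool.Agent.Gab7c_h87.CY0.T11
import Pool.Agent.Gab7c_h87.CY0.T12
import Pool.Agent.Gab7c_h87.CY0.T13
import Pool.Agent.Gab7c_h87.CY0.T14
import Pool.Agent.Gab7c_h87.CY0.T15
import Pool.Agent.Gab7c_h87.CY0.T16
import Pool.Agent.Gab7c_h87.CY0.T17
import Pool.Agent.Gab7c_h87.CY0.T18
import Pool.Agent.Gab7c_h87.CY0.T19
import Pool.Agent.Gab7c_h87.CY0.T20

/-! Certificate; see `Pool/Agent/Gab7c_h87/Ax.lean`. -/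

set_option autoImplicit false
set_option maxRecDepth 100000

namespace Pool.Agent.Gab7c_h87.CY0

open Pool.Agent.Gab7c_h87.Sat

theorem z : Tr.get 0 g 34938 = 0 := by decide +kernel

/-- The problem with these parameters has no solution. -/
theorem bad {α : Type*} [DecidableEq α] (c : Cx α)
    (hp : c.toPar = ⟨7, 127, 55, [(3, 3), (4, 2), (5, 1), (6, 0)], [12439, 3944], [], [1, 2]⟩) : False := by
  have s0 := axchk_sound c hp _ _ _ _ _ a0
  have s0 := s0.trans (axchk_sound c hp _ _ _ _ _ a1)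
  have s0 := s0.trans (axchk_sound c hp _ _ _ _ _ a2)
  have s0 := s0.trans (axchk_sound c hp _ _ _ _ _ a3)
  have s0 := s0.trans (axchk_sound c hp _ _ _ _ _ a4)
  have s0 := s0.trans (axchk_sound c hp _ _ _ _ _ a5)
  have s0 := chk_sound' t0 (e := 15184) rfl s0
  have s0 := chk_sound' t1 (e := 15794) rfl s0
  have s0 := chk_sound' t2 (e := 16464) rfl s0
  have s0 := chk_sound' t3 (e := 22698) rfl s0
  have s0 := chk_sound' t4 (e := 23537) rfl s0
  have s0 := chk_sound' t5 (e := 24367) rfl s0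
  have s0 := chk_sound' t6 (e := 25093) rfl s0
  have s0 := chk_sound' t7 (e := 25777) rfl s0
  have s0 := chk_sound' t8 (e := 26371) rfl s0
  have s0 := chk_sound' t9 (e := 27015) rfl s0
  have s0 := chk_sound' t10 (e := 27765) rfl s0
  have s0 := chk_sound' t11 (e := 28337) rfl s0
  have s0 := chk_sound' t12 (e := 28900) rfl s0
  have s0 := chk_sound' t13 (e := 29535) rfl s0
  have s0 := chk_sound' t14 (e := 30362) rfl s0
  have s0 := chk_sound' t15 (e := 30930) rfl s0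
  have s0 := chk_sound' t16 (e := 31483) rfl s0
  have s0 := chk_sound' t17 (e := 32929) rfl s0
  have s0 := chk_sound' t18 (e := 33941) rfl s0
  have s0 := chk_sound' t19 (e := 34657) rfl s0
  have s0 := chk_sound' t20 (e := 34939) rfl s0
  exact s0.false z

end Pool.Agent.Gab7c_h87.CY0
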